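import Mathlib

set_option autoImplicit false

namespace Pool.Agent.Results.MP_154a23_co.NoDim

open Finset

/-- weak sign pattern: nonpositive entries first, then nonnegative ones -/
def W (m : ℕ) : Set (Fin m → ℝ) :=
  {x | ∃ a : Fin (m + 1), (∀ i : Fin m, i.val < a.val → x i ≤ 0) ∧
    (∀ i : Fin m, a.val ≤ i.val → 0 ≤ x i)}

/-- unit vectors with sum zero -/
def S (m : ℕ) : Set (Fin m → ℝ) := {x | ∑ i, x i = 0 ∧ ∑ i, x i ^ 2 = 1}

/-- quadratic form -/
def Q {m : ℕ} (D : Fin m → Fin m → ℝ) (x : Fin m → ℝ) : ℝ := ∑ i, ∑ j, D i j * x i * x j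

theorem isClosed_W (m : ℕ) : IsClosed (W m) := by
  have : W m = ⋃ a : Fin (m + 1), ({x : Fin m → ℝ | (∀ i : Fin m, i.val < a.val → x i ≤ 0) ∧
    (∀ i : Fin m, a.val ≤ i.val → 0 ≤ x i)}) := by
    ext x; simp [W]
  rw [this]
  apply isClosed_iUnion_of_finite
  intro a
  have h1 : IsClosed {x : Fin m → ℝ | ∀ i : Fin m, i.val < a.val → x i ≤ 0} := by
    simp only [Set.ofPred_forall]
    refine isClosed_iInter fun i => isClosed_iInter fun _ => ?_
    exact isClosed_le (continuous_apply i) continuous_const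
  have h2 : IsClosed {x : Fin m → ℝ | ∀ i : Fin m, a.val ≤ i.val → 0 ≤ x i} := by
    simp only [Set.ofPred_forall]
    refine isClosed_iInter fun i => isClosed_iInter fun _ => ?_
    exact isClosed_le continuous_const (continuous_apply i)
  exact h1.inter h2

theorem isCompact_S (m : ℕ) : IsCompact (S m) := by
  apply Metric.isCompact_of_isClosed_isBounded
  · have h1 : IsClosed {x : Fin m → ℝ | ∑ i, x i = 0} :=
      isClosed_eq (by fun_prop) continuous_const
    have h2 : IsClosed {x : Fin m → ℝ | ∑ i, x i ^ 2 = 1} :=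
      isClosed_eq (by fun_prop) continuous_const
    exact h1.inter h2
  · refine (Metric.isBounded_iff_subset_closedBall (0 : Fin m → ℝ)).mpr ⟨1, ?_⟩
    intro x hx
    rw [mem_closedBall_zero_iff]
    rw [pi_norm_le_iff_of_nonneg (by norm_num)]
    intro i
    have h := Finset.single_le_sum (f := fun i => x i ^ 2) (fun i _ => sq_nonneg (x i))
      (Finset.mem_univ i)
    have h2 : x i ^ 2 ≤ 1 := by
      rw [← hx.2]; exact h
    rw [Real.norm_eq_abs]
    exact abs_le_one_iff_mul_self_le_one.mpr (by nlinarith)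

theorem continuous_Q {m : ℕ} (D : Fin m → Fin m → ℝ) : Continuous (Q D) := by
  unfold Q
  fun_prop

/-- strict order hypotheses on a symmetric matrix with zero diagonal -/
structure Lex {m : ℕ} (D : Fin m → Fin m → ℝ) : Prop where
  symm : ∀ i j, D i j = D j i
  diag : ∀ i, D i i = 0
  level : ∀ i j k l : Fin m, i < j → k < l → i < k → D i j < D k l
  dec : ∀ i j l : Fin m, i < j → j < l → D i l < D i j

theorem W_smul {m : ℕ} {x : Fin m → ℝ} (hx : x ∈ W m) (c : ℝ) (hc : 0 ≤ c) :
    (fun i => c * x i) ∈ W m := by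
  obtain ⟨a, h1, h2⟩ := hx
  exact ⟨a, fun i hi => mul_nonpos_of_nonneg_of_nonpos hc (h1 i hi),
    fun i hi => mul_nonneg hc (h2 i hi)⟩

theorem Q_smul {m : ℕ} (D : Fin m → Fin m → ℝ) (x : Fin m → ℝ) (c : ℝ) :
    Q D (fun i => c * x i) = c ^ 2 * Q D x := by
  unfold Q
  rw [Finset.mul_sum]
  apply Finset.sum_congr rfl; intro i _
  rw [Finset.mul_sum]
  apply Finset.sum_congr rfl; intro j _
  ring

theorem normalise {m : ℕ} {y : Fin m → ℝ} (hy : y ∈ W m) (hysum : ∑ i, y i = 0)
    (h0 : ∑ i, y i ^ 2 ≠ 0) :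
    ∃ c : ℝ, 0 < c ∧ c ^ 2 * ∑ i, y i ^ 2 = 1 ∧ (fun i => c * y i) ∈ S m ∩ W m := by
  have hpos : 0 < ∑ i, y i ^ 2 :=
    lt_of_le_of_ne (Finset.sum_nonneg fun i _ => sq_nonneg _) (Ne.symm h0)
  have hc2 : (1 / √(∑ i, y i ^ 2)) ^ 2 * ∑ i, y i ^ 2 = 1 := by
    rw [div_pow, Real.sq_sqrt hpos.le]
    field_simp
  have hc : 0 < 1 / √(∑ i, y i ^ 2) := by positivity
  refine ⟨1 / √(∑ i, y i ^ 2), hc, hc2, ⟨?_, ?_⟩, W_smul hy _ hc.le⟩
  · rw [← Finset.mul_sum, hysum, mul_zero]
  · refine Eq.trans ?_ hc2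
    rw [Finset.mul_sum]
    apply Finset.sum_congr rfl; intro i _; ring

/-- the vector `e_j - e_i` -/
def dif {m : ℕ} (i j : Fin m) : Fin m → ℝ := fun k => (if k = j then 1 else 0) - (if k = i then 1 else 0)

theorem dif_sum {m : ℕ} (i j : Fin m) : ∑ k, dif i j k = 0 := by
  unfold dif
  rw [Finset.sum_sub_distrib]
  simp

theorem dif_sq {m : ℕ} {i j : Fin m} (h : i ≠ j) : ∑ k, dif i j k ^ 2 = 2 := by
  have : ∀ k, dif i j k ^ 2 = (if k = j then 1 else 0) + (if k = i then 1 else 0) := by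
    intro k
    unfold dif
    by_cases h1 : k = j
    · by_cases h2 : k = i
      · exact absurd (h2.symm.trans h1) h
      · simp [h1, Ne.symm h]
    · by_cases h2 : k = i
      · simp [h2, h]
      · simp [h1, h2]
  rw [Finset.sum_congr rfl (fun k _ => this k), Finset.sum_add_distrib]
  simp
  norm_num

theorem dif_W {m : ℕ} {i j : Fin m} (h : i < j) : dif i j ∈ W m := by
  refine ⟨⟨i.val + 1, by omega⟩, ?_, ?_⟩
  · intro k hk
    have h1 : k ≠ j := by
      rintro rfl
      have : i.val < k.val := h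
      simp at hk; omega
    unfold dif
    rw [if_neg h1]
    split_ifs <;> norm_num
  · intro k hk
    have h1 : k ≠ i := by
      rintro rfl
      simp at hk
    unfold dif
    rw [if_neg h1]
    split_ifs <;> norm_num

/-- existence of a maximiser over patterned vectors, in homogeneous form -/
theorem exists_max {m : ℕ} (hm : 2 ≤ m) (D : Fin m → Fin m → ℝ) :
    ∃ x ∈ W m, ∑ i, x i = 0 ∧ ∑ i, x i ^ 2 = 1 ∧
      ∀ y ∈ W m, ∑ i, y i = 0 → Q D y ≤ Q D x * ∑ i, y i ^ 2 := by
  have hcomp : IsCompact (S m ∩ W m) := (isCompact_S m).inter_right (isClosed_W m)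
  have hne : (S m ∩ W m).Nonempty := by
    have h01 : (⟨0, by omega⟩ : Fin m) < ⟨1, by omega⟩ := by
      rw [Fin.mk_lt_mk]; norm_num
    obtain ⟨c, -, -, h⟩ := normalise (dif_W h01) (dif_sum _ _) (by
      rw [dif_sq h01.ne]; norm_num)
    exact ⟨_, h⟩
  obtain ⟨x, hx, hmax⟩ := hcomp.exists_isMaxOn hne (continuous_Q D).continuousOn
  refine ⟨x, hx.2, hx.1.1, hx.1.2, ?_⟩
  intro y hy hysum
  by_cases h0 : ∑ i, y i ^ 2 = 0
  · have hy0 : ∀ i, y i = 0 := by
      intro i
      have := (Finset.sum_eq_zero_iff_of_nonneg (fun i _ => sq_nonneg (y i))).mp h0 i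
        (Finset.mem_univ i)
      exact pow_eq_zero_iff two_ne_zero |>.mp this
    rw [h0, mul_zero]
    unfold Q
    simp [hy0]
  · obtain ⟨c, hc, hc2, hmem⟩ := normalise hy hysum h0
    have h : Q D (fun i => c * y i) ≤ Q D x := hmax hmem
    rw [Q_smul] at h
    have hcpos : 0 < c ^ 2 := by positivity
    have h3 : c ^ 2 * Q D y ≤ c ^ 2 * (Q D x * ∑ i, y i ^ 2) := by
      calc c ^ 2 * Q D y ≤ Q D x := h
        _ = Q D x * (c ^ 2 * ∑ i, y i ^ 2) := by rw [hc2, mul_one]
        _ = c ^ 2 * (Q D x * ∑ i, y i ^ 2) := by ring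
    exact le_of_mul_le_mul_left h3 hcpos

/-- gradient -/
def G {m : ℕ} (D : Fin m → Fin m → ℝ) (μ : ℝ) (x : Fin m → ℝ) (i : Fin m) : ℝ :=
  ∑ j, D i j * x j - μ * x i

theorem Q_add {m : ℕ} (D : Fin m → Fin m → ℝ) (hs : ∀ i j, D i j = D j i) (x v : Fin m → ℝ)
    (t : ℝ) : Q D (fun i => x i + t * v i)
      = Q D x + 2 * t * ∑ i, v i * ∑ j, D i j * x j + t ^ 2 * Q D v := by
  have h1 : ∑ i, v i * ∑ j, D i j * x j = ∑ i, ∑ j, D i j * v i * x j := by
    apply Finset.sum_congr rfl; intro i _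
    rw [Finset.mul_sum]
    apply Finset.sum_congr rfl; intro j _
    ring
  have h2 : ∑ i, v i * ∑ j, D i j * x j = ∑ i, ∑ j, D i j * x i * v j := by
    rw [h1, Finset.sum_comm]
    apply Finset.sum_congr rfl; intro i _
    apply Finset.sum_congr rfl; intro j _
    rw [hs j i]; ring
  have h3 : 2 * t * ∑ i, v i * ∑ j, D i j * x j
      = t * ∑ i, ∑ j, D i j * v i * x j + t * ∑ i, ∑ j, D i j * x i * v j := by
    rw [← h1, ← h2]; ring
  rw [h3]
  unfold Q
  simp only [Finset.mul_sum, ← Finset.sum_add_distrib]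
  apply Finset.sum_congr rfl; intro i _
  apply Finset.sum_congr rfl; intro j _
  ring

/-- one dimensional variation inequality -/
theorem variation {m : ℕ} {D : Fin m → Fin m → ℝ} (hs : ∀ i j, D i j = D j i) {x : Fin m → ℝ}
    (hxs : ∑ i, x i = 0) (hx1 : ∑ i, x i ^ 2 = 1)
    (hmax : ∀ y ∈ W m, ∑ i, y i = 0 → Q D y ≤ Q D x * ∑ i, y i ^ 2)
    (v : Fin m → ℝ) (hv : ∑ i, v i = 0) (t : ℝ) (hW : (fun i => x i + t * v i) ∈ W m) :
    2 * t * (∑ i, v i * G D (Q D x) x i) + t ^ 2 * (Q D v - Q D x * ∑ i, v i ^ 2) ≤ 0 := by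
  have hsum : ∑ i, (x i + t * v i) = 0 := by
    rw [Finset.sum_add_distrib, hxs, ← Finset.mul_sum, hv]; ring
  have h := hmax _ hW hsum
  rw [Q_add D hs] at h
  have h2 : ∑ i, (x i + t * v i) ^ 2 = 1 + 2 * t * ∑ i, v i * x i + t ^ 2 * ∑ i, v i ^ 2 := by
    rw [← hx1, Finset.mul_sum, Finset.mul_sum, ← Finset.sum_add_distrib, ← Finset.sum_add_distrib]
    apply Finset.sum_congr rfl; intro i _; ring
  rw [h2] at h
  have h3 : ∑ i, v i * G D (Q D x) x i
      = ∑ i, v i * ∑ j, D i j * x j - Q D x * ∑ i, v i * x i := by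
    rw [Finset.mul_sum, ← Finset.sum_sub_distrib]
    apply Finset.sum_congr rfl; intro i _
    unfold G; ring
  rw [h3]
  linarith

theorem first_order {B C t0 : ℝ} (ht0 : 0 < t0)
    (h : ∀ t, 0 < t → t ≤ t0 → 2 * t * B + t ^ 2 * C ≤ 0) : B ≤ 0 := by
  by_contra hB
  push Not at hB
  set t := min t0 (B / (|C| + 1)) with ht
  have hpos : 0 < t := lt_min ht0 (by positivity)
  have h1 := h t hpos (min_le_left _ _)
  have h2 : t * (|C| + 1) ≤ B := by
    have : t ≤ B / (|C| + 1) := min_le_right _ _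
    rwa [le_div_iff₀ (by positivity)] at this
  have h3 : -|C| ≤ C := neg_abs_le C
  have h4 : t * (-|C|) ≤ t * C := mul_le_mul_of_nonneg_left h3 hpos.le
  have h5 : t * (2 * B + t * C) ≤ 0 := by nlinarith
  have h6 : 0 < 2 * B + t * C := by nlinarith
  nlinarith

/-- comparison of two gradient entries along `e_j - e_i` -/
theorem kkt {m : ℕ} {D : Fin m → Fin m → ℝ} (hs : ∀ i j, D i j = D j i) {x : Fin m → ℝ}
    (hxs : ∑ i, x i = 0) (hx1 : ∑ i, x i ^ 2 = 1)
    (hmax : ∀ y ∈ W m, ∑ i, y i = 0 → Q D y ≤ Q D x * ∑ i, y i ^ 2)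
    (i j : Fin m) {t0 : ℝ} (ht0 : 0 < t0)
    (hW : ∀ t, 0 < t → t ≤ t0 → (fun k => x k + t * dif i j k) ∈ W m) :
    G D (Q D x) x j ≤ G D (Q D x) x i := by
  have hsum : ∑ k, dif i j k * G D (Q D x) x k = G D (Q D x) x j - G D (Q D x) x i := by
    unfold dif
    simp [sub_mul, Finset.sum_sub_distrib]
  have := first_order (B := G D (Q D x) x j - G D (Q D x) x i)
    (C := Q D (dif i j) - Q D x * ∑ k, dif i j k ^ 2) ht0 (by
      intro t ht1 ht2
      have := variation hs hxs hx1 hmax (dif i j) (dif_sum i j) t (hW t ht1 ht2)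
      rwa [hsum] at this)
  linarith

/-- shifted entries are nonnegative at a maximiser -/
theorem shift_nonneg {m : ℕ} {D : Fin m → Fin m → ℝ} (hD : Lex D) {x : Fin m → ℝ}
    (hmax : ∀ y ∈ W m, ∑ i, y i = 0 → Q D y ≤ Q D x * ∑ i, y i ^ 2)
    {i j : Fin m} (h : i < j) : 0 ≤ D i j + Q D x := by
  have h1 := hmax (dif i j) (dif_W h) (dif_sum i j)
  rw [dif_sq h.ne] at h1
  have h2 : Q D (dif i j) = -2 * D i j := by
    unfold Q dif
    simp [mul_sub, Finset.sum_sub_distrib, hD.diag]
    rw [hD.symm j i]; ring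
  rw [h2] at h1
  linarith

theorem G_sub {m : ℕ} {D : Fin m → Fin m → ℝ} (hs : ∀ i j, D i j = D j i) {x : Fin m → ℝ}
    (hxs : ∑ i, x i = 0) (μ κ : ℝ) (j l : Fin m) :
    G D μ x j - G D μ x l = ∑ i, ((D i j - (if i = j then μ else 0)) -
      (D i l - (if i = l then μ else 0)) - κ) * x i := by
  have h1 : ∀ a, G D μ x a = ∑ i, (D i a - (if i = a then μ else 0)) * x i := by
    intro a
    unfold G
    simp only [sub_mul, Finset.sum_sub_distrib]
    congr 1
    · apply Finset.sum_congr rfl; intro i _; rw [hs a i]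
    · simp
  rw [h1, h1, ← Finset.sum_sub_distrib]
  have h2 : ∑ i, ((D i j - (if i = j then μ else 0)) -
      (D i l - (if i = l then μ else 0)) - κ) * x i
      = ∑ i, ((D i j - (if i = j then μ else 0)) * x i - (D i l - (if i = l then μ else 0)) * x i)
        - κ * ∑ i, x i := by
    rw [Finset.mul_sum, ← Finset.sum_sub_distrib]
    apply Finset.sum_congr rfl; intro i _; ring
  rw [h2, hxs, mul_zero, sub_zero]

/-- a zero before the last negative entry -/
theorem slN {m : ℕ} {D : Fin m → Fin m → ℝ} (hD : Lex D) {x : Fin m → ℝ}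
    (hxs : ∑ i, x i = 0) (μ : ℝ) (hμ : ∀ i j : Fin m, i < j → 0 ≤ D i j + μ)
    (j l : Fin m) (hjl : j < l) (hxj : x j = 0) (hxl : x l < 0)
    (hneg : ∀ i, i ≤ l → x i ≤ 0) (hpos : ∀ i, l < i → 0 ≤ x i) :
    G D μ x j < G D μ x l := by
  classical
  -- some index after `l`
  have hex : ∃ h, l < h := by
    by_contra hcon
    push Not at hcon
    have : ∑ i, x i < 0 :=
      Finset.sum_neg' (fun i _ => hneg i (hcon i)) ⟨l, Finset.mem_univ l, hxl⟩
    linarith
  obtain ⟨h1, hh1⟩ := hex
  obtain ⟨h0, hh0, hh0max⟩ := Finset.exists_max_image (Finset.univ.filter (fun h => l < h))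
    (fun h => D j h - D l h) ⟨h1, by simpa using hh1⟩
  have hlh0 : l < h0 := by simpa using hh0
  set κ := D j h0 - D l h0 with hκ
  have hκneg : κ < 0 := by
    have := hD.level j h0 l h0 (hjl.trans hlh0) hlh0 hjl
    linarith
  rw [← sub_neg, G_sub hD.symm hxs μ κ j l]
  apply Finset.sum_neg'
  · intro i _
    by_cases hij : i = j
    · rw [hij, hxj, mul_zero]
    · rw [if_neg hij]
      rcases lt_trichotomy i l with hil | hil | hil
      · rw [if_neg hil.ne]
        have hxi := hneg i hil.le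
        apply mul_nonpos_of_nonneg_of_nonpos _ hxi
        rcases lt_or_gt_of_ne hij with hlt | hgt
        · have := hD.dec i j l hlt hjl
          linarith
        · have e1 := hD.dec j i h0 hgt (hil.trans hlh0)
          have e2 := hD.level i l l h0 hil hlh0 hil
          rw [hD.symm i j]
          linarith
      · rw [hil, if_pos rfl, hD.diag]
        have := hμ j l hjl
        rw [hD.symm l j]
        apply mul_nonpos_of_nonneg_of_nonpos _ hxl.le
        linarith
      · rw [if_neg hil.ne']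
        apply mul_nonpos_of_nonpos_of_nonneg _ (hpos i hil)
        have := hh0max i (by simpa using hil)
        rw [hD.symm i j, hD.symm i l]
        linarith
  · refine ⟨l, Finset.mem_univ l, ?_⟩
    rw [if_neg hjl.ne', if_pos rfl, hD.diag, hD.symm l j]
    apply mul_neg_of_pos_of_neg _ hxl
    have := hμ j l hjl
    linarith

/-- a zero after the first positive entry -/
theorem slP {m : ℕ} {D : Fin m → Fin m → ℝ} (hD : Lex D) {x : Fin m → ℝ}
    (hxs : ∑ i, x i = 0) (μ : ℝ) (hμ : ∀ i j : Fin m, i < j → 0 ≤ D i j + μ)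
    (k j : Fin m) (hkj : k < j) (hxj : x j = 0) (hxk : 0 < x k)
    (hneg : ∀ i, i < k → x i ≤ 0) (hpos : ∀ i, k ≤ i → 0 ≤ x i) :
    G D μ x k < G D μ x j := by
  have hex : ∃ i, x i < 0 := by
    by_contra hcon
    push Not at hcon
    have : 0 < ∑ i, x i :=
      Finset.sum_pos' (fun i _ => hcon i) ⟨k, Finset.mem_univ k, hxk⟩
    linarith
  obtain ⟨i0, hi0⟩ := hex
  have hi0k : i0 < k := by
    by_contra hcon
    push Not at hcon
    linarith [hpos i0 hcon]
  rw [← sub_pos, G_sub hD.symm hxs μ 0 j k]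
  apply Finset.sum_pos'
  · intro i _
    by_cases hij : i = j
    · rw [hij, hxj, mul_zero]
    · rw [if_neg hij]
      rcases lt_trichotomy i k with hik | hik | hik
      · rw [if_neg hik.ne]
        have := hD.dec i k j hik hkj
        have h2 := hneg i hik
        nlinarith
      · rw [hik, if_pos rfl, hD.diag]
        have := hμ k j hkj
        apply mul_nonneg _ hxk.le
        linarith
      · rw [if_neg hik.ne']
        apply mul_nonneg _ (hpos i hik.le)
        have : D i k < D i j := by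
          rw [hD.symm i k]
          rcases lt_or_gt_of_ne hij with hlt | hgt
          · exact hD.level k i i j hik hlt hik
          · rw [hD.symm i j]
            exact hD.level k i j i hik hgt hkj
        linarith
  · refine ⟨i0, Finset.mem_univ i0, ?_⟩
    have hne : i0 ≠ j := (hi0k.trans hkj).ne
    rw [if_neg hne, if_neg hi0k.ne]
    have := hD.dec i0 k j hi0k hkj
    nlinarith

/-- two zeros in the middle -/
theorem slM {m : ℕ} {D : Fin m → Fin m → ℝ} (hD : Lex D) {x : Fin m → ℝ}
    (hxs : ∑ i, x i = 0) (μ : ℝ)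
    (j j' : Fin m) (hjj : j < j') (hxj : x j = 0) (hxj' : x j' = 0)
    (hneg : ∀ i, i < j → x i ≤ 0) (hmid : ∀ i, j < i → i < j' → x i = 0)
    (hpos : ∀ i, j' < i → 0 ≤ x i) (hex : ∃ i, x i ≠ 0) :
    G D μ x j < G D μ x j' := by
  have hex2 : ∃ i, x i < 0 := by
    by_contra hcon
    push Not at hcon
    obtain ⟨i, hi⟩ := hex
    have : 0 < ∑ i, x i :=
      Finset.sum_pos' (fun i _ => hcon i) ⟨i, Finset.mem_univ i, lt_of_le_of_ne (hcon i) (Ne.symm hi)⟩
    linarith
  obtain ⟨i0, hi0⟩ := hex2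
  have hi0j : i0 < j := by
    by_contra hcon
    push Not at hcon
    rcases hcon.eq_or_lt with h | h
    · rw [← h, hxj] at hi0; exact lt_irrefl _ hi0
    · rcases lt_trichotomy i0 j' with h2 | h2 | h2
      · rw [hmid i0 h h2] at hi0; exact lt_irrefl _ hi0
      · rw [h2, hxj'] at hi0; exact lt_irrefl _ hi0
      · linarith [hpos i0 h2]
  rw [← sub_pos, G_sub hD.symm hxs μ 0 j' j]
  apply Finset.sum_pos'
  · intro i _
    rcases lt_trichotomy i j with h | h | h
    · rw [if_neg (h.trans hjj).ne, if_neg h.ne]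
      have := hD.dec i j j' h hjj
      have h2 := hneg i h
      nlinarith
    · rw [h, hxj, mul_zero]
    · rcases lt_trichotomy i j' with h2 | h2 | h2
      · rw [hmid i h h2, mul_zero]
      · rw [h2, hxj', mul_zero]
      · rw [if_neg h2.ne', if_neg h.ne']
        apply mul_nonneg _ (hpos i h2)
        have := hD.level j i j' i h h2 hjj
        rw [hD.symm i j', hD.symm i j]
        linarith
  · refine ⟨i0, Finset.mem_univ i0, ?_⟩
    rw [if_neg (hi0j.trans hjj).ne, if_neg hi0j.ne]
    have := hD.dec i0 j j' hi0j hjj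
    nlinarith

/-- a maximiser is strictly patterned -/
theorem strict_pattern {m : ℕ} {D : Fin m → Fin m → ℝ} (hD : Lex D) {x : Fin m → ℝ}
    (hxW : x ∈ W m) (hxs : ∑ i, x i = 0) (hx1 : ∑ i, x i ^ 2 = 1)
    (hmax : ∀ y ∈ W m, ∑ i, y i = 0 → Q D y ≤ Q D x * ∑ i, y i ^ 2) :
    ∃ a : Fin m, (∀ i, i < a → x i < 0) ∧ (∀ i, a < i → 0 < x i) := by
  classical
  have hμ : ∀ i j : Fin m, i < j → 0 ≤ D i j + Q D x := fun i j h => shift_nonneg hD hmax h
  have hne0 : ∃ i, x i ≠ 0 := by
    by_contra hcon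
    push Not at hcon
    simp [hcon] at hx1
  have hexneg : ∃ i, x i < 0 := by
    by_contra hcon
    push Not at hcon
    obtain ⟨i, hi⟩ := hne0
    have : 0 < ∑ i, x i :=
      Finset.sum_pos' (fun i _ => hcon i) ⟨i, Finset.mem_univ i, lt_of_le_of_ne (hcon i) (Ne.symm hi)⟩
    linarith
  have hexpos : ∃ i, 0 < x i := by
    by_contra hcon
    push Not at hcon
    obtain ⟨i, hi⟩ := hexneg
    have : ∑ i, x i < 0 :=
      Finset.sum_neg' (fun i _ => hcon i) ⟨i, Finset.mem_univ i, hi⟩
    linarith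
  obtain ⟨l, hl, hlmax⟩ : ∃ l, x l < 0 ∧ ∀ i, x i < 0 → i ≤ l := by
    obtain ⟨i, hi⟩ := hexneg
    obtain ⟨l, hl, hlm⟩ := Finset.exists_max_image (Finset.univ.filter (fun h => x h < 0))
      (fun h => h) ⟨i, by simpa using hi⟩
    exact ⟨l, by simpa using hl, fun i hi => hlm i (by simpa using hi)⟩
  obtain ⟨k, hk, hkmin⟩ : ∃ k, 0 < x k ∧ ∀ i, 0 < x i → k ≤ i := by
    obtain ⟨i, hi⟩ := hexpos
    obtain ⟨l, hl, hlm⟩ := Finset.exists_min_image (Finset.univ.filter (fun h => 0 < x h))
      (fun h => h) ⟨i, by simpa using hi⟩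
    exact ⟨l, by simpa using hl, fun i hi => hlm i (by simpa using hi)⟩
  obtain ⟨a, ha1, ha2⟩ := hxW
  have hla : l.val < a.val := by
    by_contra hcon
    push Not at hcon
    linarith [ha2 l hcon]
  have hka : a.val ≤ k.val := by
    by_contra hcon
    push Not at hcon
    linarith [ha1 k hcon]
  have hlk : l < k := by
    rw [Fin.lt_def]; omega
  have hneg1 : ∀ i, i < k → x i ≤ 0 := by
    intro i hi
    by_contra hcon
    push Not at hcon
    exact absurd (hkmin i hcon) (not_le.mpr hi)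
  have hpos1 : ∀ i, l < i → 0 ≤ x i := by
    intro i hi
    by_contra hcon
    push Not at hcon
    exact absurd (hlmax i hcon) (not_le.mpr hi)
  have hneg2 : ∀ i, i ≤ l → x i ≤ 0 := fun i hi => hneg1 i (lt_of_le_of_lt hi hlk)
  have hpos2 : ∀ i, k ≤ i → 0 ≤ x i := fun i hi => hpos1 i (lt_of_lt_of_le hlk hi)
  -- claim 1
  have c1 : ∀ i, i < l → x i < 0 := by
    intro i hi
    rcases (hneg2 i hi.le).lt_or_eq with h | h
    · exact h
    · exfalso
      have h1 := slN hD hxs (Q D x) hμ i l hi h hl hneg2 hpos1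
      have h2 := kkt hD.symm hxs hx1 hmax i l (t0 := -x l) (by linarith) (by
        intro t ht1 ht2
        refine ⟨⟨l.val + 1, by omega⟩, ?_, ?_⟩
        · intro b hb
          have hbl : b ≤ l := by
            rw [Fin.le_def]; simp at hb; omega
          simp only [dif]
          by_cases hb1 : b = l
          · subst hb1
            rw [if_pos rfl, if_neg hi.ne']
            linarith
          · rw [if_neg hb1]
            have := hneg2 b hbl
            split_ifs <;> linarith
        · intro b hb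
          have hbl : l < b := by
            rw [Fin.lt_def]; simp at hb; omega
          simp only [dif]
          rw [if_neg hbl.ne', if_neg (hi.trans hbl).ne']
          have := hpos1 b hbl
          linarith)
      linarith
  -- claim 2
  have c2 : ∀ i, k < i → 0 < x i := by
    intro i hi
    rcases (hpos2 i hi.le).lt_or_eq with h | h
    · exact h
    · exfalso
      have h1 := slP hD hxs (Q D x) hμ k i hi h.symm hk hneg1 hpos2
      have h2 := kkt hD.symm hxs hx1 hmax k i (t0 := x k) hk (by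
        intro t ht1 ht2
        refine ⟨⟨k.val, by omega⟩, ?_, ?_⟩
        · intro b hb
          have hbl : b < k := by
            rw [Fin.lt_def]; simpa using hb
          simp only [dif]
          rw [if_neg hbl.ne, if_neg (hbl.trans hi).ne]
          have := hneg1 b hbl
          linarith
        · intro b hb
          have hbl : k ≤ b := by
            rw [Fin.le_def]; simpa using hb
          simp only [dif]
          by_cases hb1 : b = k
          · subst hb1
            rw [if_pos rfl, if_neg hi.ne]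
            linarith
          · rw [if_neg hb1]
            have := hpos2 b hbl
            split_ifs <;> linarith)
      linarith
  -- claim 3
  have c3 : ∀ j j', l < j → j < j' → j' < k → False := by
    intro j j' h1 h2 h3
    have hxj : x j = 0 := le_antisymm (hneg1 j (h2.trans h3)) (hpos1 j h1)
    have hxj' : x j' = 0 := le_antisymm (hneg1 j' h3) (hpos1 j' (h1.trans h2))
    have e1 := slM hD hxs (Q D x) j j' h2 hxj hxj' (fun i hi => hneg1 i (hi.trans (h2.trans h3)))
      (fun i hi hi' => le_antisymm (hneg1 i (hi'.trans h3)) (hpos1 i (h1.trans hi)))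
      (fun i hi => hpos1 i ((h1.trans h2).trans hi)) hne0
    have e2 := kkt hD.symm hxs hx1 hmax j j' (t0 := 1) one_pos (by
        intro t ht1 ht2
        refine ⟨⟨j.val + 1, by omega⟩, ?_, ?_⟩
        · intro b hb
          have hbl : b ≤ j := by
            rw [Fin.le_def]; simp at hb; omega
          have hbj' : b ≠ j' := (lt_of_le_of_lt hbl h2).ne
          simp only [dif]
          rw [if_neg hbj']
          have := hneg1 b (lt_of_le_of_lt hbl (h2.trans h3))
          split_ifs <;> linarith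
        · intro b hb
          have hbl : j < b := by
            rw [Fin.lt_def]; simp at hb; omega
          simp only [dif]
          rw [if_neg hbl.ne']
          have := hpos1 b (h1.trans hbl)
          split_ifs <;> linarith)
    linarith
  by_cases hmid : ∃ j, l < j ∧ j < k
  · obtain ⟨j, hj1, hj2⟩ := hmid
    refine ⟨j, ?_, ?_⟩
    · intro i hi
      rcases lt_trichotomy i l with h | h | h
      · exact c1 i h
      · rw [h]; exact hl
      · exact absurd (c3 i j h hi hj2) (by simp)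
    · intro i hi
      rcases lt_trichotomy i k with h | h | h
      · exact absurd (c3 j i hj1 hi h) (by simp)
      · rw [h]; exact hk
      · exact c2 i h
  · push Not at hmid
    refine ⟨l, c1, ?_⟩
    intro i hi
    rcases (hmid i hi).eq_or_lt with h | h
    · rw [← h]; exact hk
    · exact c2 i h

theorem mem_W_of_strict {m : ℕ} {y : Fin m → ℝ} {a : Fin m} (h1 : ∀ i, i < a → y i < 0)
    (h2 : ∀ i, a < i → 0 < y i) : y ∈ W m := by
  by_cases ha : y a ≤ 0
  · refine ⟨⟨a.val + 1, by omega⟩, ?_, ?_⟩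
    · intro i hi
      have hia : i ≤ a := by
        rw [Fin.le_def]; simp at hi; omega
      rcases hia.eq_or_lt with h | h
      · rw [h]; exact ha
      · exact (h1 i h).le
    · intro i hi
      have hia : a < i := by
        rw [Fin.lt_def]; simp at hi; omega
      exact (h2 i hia).le
  · refine ⟨⟨a.val, by omega⟩, ?_, ?_⟩
    · intro i hi
      have hia : i < a := by
        rw [Fin.lt_def]; simpa using hi
      exact (h1 i hia).le
    · intro i hi
      have hia : a ≤ i := by
        rw [Fin.le_def]; simpa using hi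
      rcases hia.eq_or_lt with h | h
      · rw [← h]; linarith
      · exact (h2 i h).le

/-- the maximiser is a global one -/
theorem global_max {m : ℕ} {D : Fin m → Fin m → ℝ} (hD : Lex D) {x : Fin m → ℝ}
    (hxs : ∑ i, x i = 0) (hx1 : ∑ i, x i ^ 2 = 1)
    (hmax : ∀ y ∈ W m, ∑ i, y i = 0 → Q D y ≤ Q D x * ∑ i, y i ^ 2)
    {a : Fin m} (h1 : ∀ i, i < a → x i < 0) (h2 : ∀ i, a < i → 0 < x i)
    (z : Fin m → ℝ) (hz : ∑ i, z i = 0) : Q D z ≤ Q D x * ∑ i, z i ^ 2 := by
  have hopen : IsOpen {y : Fin m → ℝ | (∀ i, i < a → y i < 0) ∧ (∀ i, a < i → 0 < y i)} := by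
    have o1 : IsOpen {y : Fin m → ℝ | ∀ i, i < a → y i < 0} := by
      simp only [Set.ofPred_forall]
      refine isOpen_iInter_of_finite fun i => isOpen_iInter_of_finite fun _ => ?_
      exact isOpen_lt (continuous_apply i) continuous_const
    have o2 : IsOpen {y : Fin m → ℝ | ∀ i, a < i → 0 < y i} := by
      simp only [Set.ofPred_forall]
      refine isOpen_iInter_of_finite fun i => isOpen_iInter_of_finite fun _ => ?_
      exact isOpen_lt continuous_const (continuous_apply i)
    exact o1.inter o2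
  have hcont : Continuous (fun t : ℝ => (fun i => x i + t * z i : Fin m → ℝ)) := by
    fun_prop
  have hpre := hopen.preimage hcont
  have h0 : (0 : ℝ) ∈ (fun t : ℝ => (fun i => x i + t * z i : Fin m → ℝ)) ⁻¹'
      {y : Fin m → ℝ | (∀ i, i < a → y i < 0) ∧ (∀ i, a < i → 0 < y i)} := by
    refine ⟨?_, ?_⟩
    · intro i hi; simpa using h1 i hi
    · intro i hi; simpa using h2 i hi
  obtain ⟨ε, hε, hball⟩ := Metric.isOpen_iff.mp hpre 0 h0
  have hp : (ε / 2) ∈ Metric.ball (0 : ℝ) ε := by
    rw [Metric.mem_ball, Real.dist_eq, sub_zero, abs_of_pos (by positivity)]; linarith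
  have hn : -(ε / 2) ∈ Metric.ball (0 : ℝ) ε := by
    rw [Metric.mem_ball, Real.dist_eq, sub_zero, abs_neg, abs_of_pos (by positivity)]; linarith
  have wp := hball hp
  have wn := hball hn
  have v1 := variation hD.symm hxs hx1 hmax z hz (ε / 2) (mem_W_of_strict wp.1 wp.2)
  have v2 := variation hD.symm hxs hx1 hmax z hz (-(ε / 2)) (mem_W_of_strict wn.1 wn.2)
  have hε2 : 0 < (ε / 2) ^ 2 := by positivity
  nlinarith

section Geometry

variable {d : ℕ}

theorem dist_sq_expand (u v : EuclideanSpace ℝ (Fin d)) :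
    dist u v ^ 2 = ‖u‖ ^ 2 - 2 * @inner ℝ _ _ u v + ‖v‖ ^ 2 := by
  rw [dist_eq_norm, norm_sub_sq_real]

theorem Q_dist {m : ℕ} (q : Fin m → EuclideanSpace ℝ (Fin d)) (z : Fin m → ℝ)
    (hz : ∑ i, z i = 0) :
    Q (fun i j => dist (q i) (q j) ^ 2) z = -2 * ‖∑ i, z i • q i‖ ^ 2 := by
  have h1 : ‖∑ i, z i • q i‖ ^ 2 = ∑ i, ∑ j, z i * z j * @inner ℝ _ _ (q i) (q j) := by
    rw [← real_inner_self_eq_norm_sq, sum_inner]
    apply Finset.sum_congr rfl; intro i _
    rw [inner_sum]
    apply Finset.sum_congr rfl; intro j _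
    rw [inner_smul_left, inner_smul_right]
    simp only [conj_trivial]
    ring
  have h2 : ∑ i, ∑ j, ‖q i‖ ^ 2 * z i * z j = 0 := by
    have : ∀ i, ∑ j, ‖q i‖ ^ 2 * z i * z j = 0 := by
      intro i
      rw [← Finset.mul_sum, hz, mul_zero]
    simp [this]
  have h3 : ∑ i, ∑ j, ‖q j‖ ^ 2 * z i * z j = 0 := by
    rw [Finset.sum_comm]
    have : ∀ j, ∑ i, ‖q j‖ ^ 2 * z i * z j = 0 := by
      intro j
      have : ∀ i, ‖q j‖ ^ 2 * z i * z j = (‖q j‖ ^ 2 * z j) * z i := fun i => by ring
      rw [Finset.sum_congr rfl (fun i _ => this i), ← Finset.mul_sum, hz, mul_zero]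
    simp [this]
  have h4 : Q (fun i j => dist (q i) (q j) ^ 2) z
      = ∑ i, ∑ j, ‖q i‖ ^ 2 * z i * z j + ∑ i, ∑ j, ‖q j‖ ^ 2 * z i * z j
        - 2 * ∑ i, ∑ j, z i * z j * @inner ℝ _ _ (q i) (q j) := by
    unfold Q
    rw [Finset.mul_sum, ← Finset.sum_add_distrib, ← Finset.sum_sub_distrib]
    apply Finset.sum_congr rfl; intro i _
    rw [Finset.mul_sum, ← Finset.sum_add_distrib, ← Finset.sum_sub_distrib]
    apply Finset.sum_congr rfl; intro j _
    change dist (q i) (q j) ^ 2 * z i * z j = _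
    rw [dist_sq_expand]
    ring
  rw [h4, h2, h3, h1]; ring

theorem phi_const {m : ℕ} (q : Fin m → EuclideanSpace ℝ (Fin d)) (x : Fin m → ℝ)
    (hx : ∑ i, x i = 0) (hxq : ∑ i, x i • q i = 0) (r : EuclideanSpace ℝ (Fin d)) :
    ∑ i, x i * dist r (q i) ^ 2 = ∑ i, x i * ‖q i‖ ^ 2 := by
  have h1 : ∀ i, x i * dist r (q i) ^ 2
      = ‖r‖ ^ 2 * x i - 2 * @inner ℝ _ _ r (x i • q i) + x i * ‖q i‖ ^ 2 := by
    intro i
    rw [dist_sq_expand, inner_smul_right]; ring
  rw [Finset.sum_congr rfl (fun i _ => h1 i), Finset.sum_add_distrib, Finset.sum_sub_distrib,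
    ← Finset.mul_sum, ← Finset.mul_sum, ← inner_sum, hx, hxq, inner_zero_right]
  ring

theorem exists_dependency (q : Fin (d + 2) → EuclideanSpace ℝ (Fin d)) :
    ∃ z : Fin (d + 2) → ℝ, z ≠ 0 ∧ ∑ i, z i = 0 ∧ ∑ i, z i • q i = 0 := by
  let f : (Fin (d + 2) → ℝ) →ₗ[ℝ] ℝ × EuclideanSpace ℝ (Fin d) :=
    LinearMap.prod (∑ i, LinearMap.proj i) (Fintype.linearCombination ℝ q)
  have hker : LinearMap.ker f ≠ ⊥ := by
    apply LinearMap.ker_ne_bot_of_finrank_lt
    simp
    omega
  obtain ⟨z, hz, hz0⟩ := Submodule.exists_mem_ne_zero_of_ne_bot hker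
  rw [LinearMap.mem_ker] at hz
  have h1 : (f z).1 = 0 := by rw [hz]; rfl
  have h2 : (f z).2 = 0 := by rw [hz]; rfl
  refine ⟨z, hz0, ?_, ?_⟩
  · simpa [f] using h1
  · simpa [f, Fintype.linearCombination_apply] using h2

theorem core (p : Fin (d + 3) → EuclideanSpace ℝ (Fin d))
    (H : ∀ i j k l : Fin (d + 3), i < j → k < l → (i < k ∨ (i = k ∧ l < j)) →
      dist (p i) (p j) < dist (p k) (p l)) : False := by
  classical
  set q : Fin (d + 2) → EuclideanSpace ℝ (Fin d) := fun j => p j.succ with hq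
  set D : Fin (d + 2) → Fin (d + 2) → ℝ := fun i j => dist (q i) (q j) ^ 2 with hDdef
  have hsq : ∀ {a b : ℝ}, 0 ≤ a → a < b → a ^ 2 < b ^ 2 := fun h1 h2 =>
    pow_lt_pow_left₀ h2 h1 two_ne_zero
  have hD : Lex D :=
    { symm := fun i j => by simp only [hDdef, dist_comm]
      diag := fun i => by simp [hDdef]
      level := fun i j k l hij hkl hik => hsq dist_nonneg
        (H _ _ _ _ (Fin.succ_lt_succ_iff.mpr hij) (Fin.succ_lt_succ_iff.mpr hkl)
          (Or.inl (Fin.succ_lt_succ_iff.mpr hik)))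
      dec := fun i j l hij hjl => hsq dist_nonneg
        (H _ _ _ _ (Fin.succ_lt_succ_iff.mpr (hij.trans hjl)) (Fin.succ_lt_succ_iff.mpr hij)
          (Or.inr ⟨rfl, Fin.succ_lt_succ_iff.mpr hjl⟩)) }
  obtain ⟨x, hxW, hxs, hx1, hmax⟩ := exists_max (m := d + 2) (by omega) D
  obtain ⟨a, ha1, ha2⟩ := strict_pattern hD hxW hxs hx1 hmax
  -- the maximum value is zero
  obtain ⟨z, hz0, hzs, hzq⟩ := exists_dependency q
  have hgl := global_max hD hxs hx1 hmax ha1 ha2 z hzs
  have hQz : Q D z = 0 := by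
    rw [hDdef, Q_dist q z hzs, hzq]; simp
  have hzpos : 0 < ∑ i, z i ^ 2 := by
    obtain ⟨i, hi⟩ := Function.ne_iff.mp hz0
    apply Finset.sum_pos' (fun i _ => sq_nonneg _) ⟨i, Finset.mem_univ i, ?_⟩
    have : z i ≠ 0 := hi
    positivity
  have hμ1 : 0 ≤ Q D x := by
    rw [hQz] at hgl
    by_contra hcon
    push Not at hcon
    have := mul_neg_of_neg_of_pos hcon hzpos
    linarith
  have hμ2 : Q D x = -2 * ‖∑ i, x i • q i‖ ^ 2 := Q_dist q x hxs
  have hxq : ∑ i, x i • q i = 0 := by
    have : ‖∑ i, x i • q i‖ ^ 2 = 0 := by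
      have := sq_nonneg ‖∑ i, x i • q i‖
      linarith
    exact norm_eq_zero.mp (pow_eq_zero_iff two_ne_zero |>.mp this)
  -- last negative entry
  have hexneg : ∃ i, x i < 0 := by
    by_contra hcon
    push Not at hcon
    have h0 : ∀ i, x i = 0 := by
      intro i
      exact (Finset.sum_eq_zero_iff_of_nonneg (fun i _ => hcon i)).mp hxs i (Finset.mem_univ i)
    simp [h0] at hx1
  obtain ⟨l, hl, hlmax⟩ : ∃ l, x l < 0 ∧ ∀ i, x i < 0 → i ≤ l := by
    obtain ⟨i, hi⟩ := hexneg
    obtain ⟨l, hl, hlm⟩ := Finset.exists_max_image (Finset.univ.filter (fun h => x h < 0))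
      (fun h => h) ⟨i, by simpa using hi⟩
    exact ⟨l, by simpa using hl, fun i hi => hlm i (by simpa using hi)⟩
  have hpos : ∀ i, l < i → 0 ≤ x i := by
    intro i hi
    by_contra hcon
    push Not at hcon
    exact absurd (hlmax i hcon) (not_le.mpr hi)
  have hla : l ≤ a := by
    by_contra hcon
    push Not at hcon
    linarith [ha2 l hcon]
  have hneg : ∀ i, i < l → x i ≤ 0 := fun i hi => (ha1 i (lt_of_lt_of_le hi hla)).le
  have hllast : l < Fin.last (d + 1) := by
    rcases (Fin.le_last l).lt_or_eq with h | h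
    · exact h
    · exfalso
      have : ∑ i, x i < 0 :=
        Finset.sum_neg' (fun i _ => by
          rcases (Fin.le_last i).lt_or_eq with h' | h'
          · exact hneg i (h ▸ h')
          · rw [h', ← h]; exact hl.le) ⟨l, Finset.mem_univ l, hl⟩
      linarith
  -- the function is positive at `q l`
  have hκ : 0 < D l (Fin.last (d + 1)) := by
    have h1 := H 0 (Fin.succ l) (Fin.succ l) (Fin.succ (Fin.last (d + 1))) (Fin.succ_pos l)
      (Fin.succ_lt_succ_iff.mpr hllast) (Or.inl (Fin.succ_pos l))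
    have h2 : 0 < dist (q l) (q (Fin.last (d + 1))) := lt_of_le_of_lt dist_nonneg h1
    simp only [hDdef]
    positivity
  have hphi1 : 0 < ∑ i, x i * dist (q l) (q i) ^ 2 := by
    have e1 : ∑ i, x i * dist (q l) (q i) ^ 2
        = ∑ i, x i * (D l i - D l (Fin.last (d + 1))) := by
      have : ∑ i, x i * (D l i - D l (Fin.last (d + 1)))
          = ∑ i, x i * D l i - (∑ i, x i) * D l (Fin.last (d + 1)) := by
        rw [Finset.sum_mul, ← Finset.sum_sub_distrib]
        apply Finset.sum_congr rfl; intro i _; ring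
      rw [this, hxs, zero_mul, sub_zero]
    rw [e1]
    apply Finset.sum_pos'
    · intro i _
      rcases lt_trichotomy i l with h | h | h
      · have h1 := hD.level i l l (Fin.last (d + 1)) h hllast h
        rw [hD.symm l i]
        have h2 := hneg i h
        nlinarith
      · rw [h, hD.diag]
        nlinarith
      · apply mul_nonneg (hpos i h)
        rcases (Fin.le_last i).lt_or_eq with h' | h'
        · have := hD.dec l i (Fin.last (d + 1)) h h'
          linarith
        · rw [h']; linarith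
    · refine ⟨l, Finset.mem_univ l, ?_⟩
      rw [hD.diag]
      nlinarith
  have hphi0 : ∑ i, x i * dist (p 0) (q i) ^ 2 ≤ 0 := by
    have e1 : ∑ i, x i * dist (p 0) (q i) ^ 2
        = ∑ i, x i * (dist (p 0) (q i) ^ 2 - dist (p 0) (q l) ^ 2) := by
      have : ∑ i, x i * (dist (p 0) (q i) ^ 2 - dist (p 0) (q l) ^ 2)
          = ∑ i, x i * dist (p 0) (q i) ^ 2 - (∑ i, x i) * dist (p 0) (q l) ^ 2 := by
        rw [Finset.sum_mul, ← Finset.sum_sub_distrib]
        apply Finset.sum_congr rfl; intro i _; ring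
      rw [this, hxs, zero_mul, sub_zero]
    rw [e1]
    apply Finset.sum_nonpos
    intro i _
    rcases lt_trichotomy i l with h | h | h
    · have h1 := hsq dist_nonneg (H 0 (Fin.succ l) 0 (Fin.succ i) (Fin.succ_pos l)
        (Fin.succ_pos i) (Or.inr ⟨rfl, Fin.succ_lt_succ_iff.mpr h⟩))
      have h2 := hneg i h
      have h3 : dist (p 0) (q l) ^ 2 < dist (p 0) (q i) ^ 2 := h1
      nlinarith
    · rw [h, sub_self, mul_zero]
    · have h1 := hsq dist_nonneg (H 0 (Fin.succ i) 0 (Fin.succ l) (Fin.succ_pos i)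
        (Fin.succ_pos l) (Or.inr ⟨rfl, Fin.succ_lt_succ_iff.mpr h⟩))
      have h2 := hpos i h
      have h3 : dist (p 0) (q i) ^ 2 < dist (p 0) (q l) ^ 2 := h1
      nlinarith
  rw [phi_const q x hxs hxq] at hphi1 hphi0
  linarith

end Geometry

/-- unordered pairs of distinct indices -/
def Pairs (n : ℕ) : Type := {e : Sym2 (Fin n) // ¬ e.IsDiag}

/-- the unordered pair `{i, j}` of two distinct indices -/
def pair {n : ℕ} (i j : Fin n) (h : i ≠ j) : Pairs n := ⟨s(i, j), by simpa using h⟩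

/-- the order `r` on the pairs is realizable in `ℝ ^ d`: some points `p 1, ..., p n` have
`|p i - p j| < |p k - p l|` whenever `{i, j}` precedes `{k, l}` -/
def Realizable (n d : ℕ) (r : Pairs n → Pairs n → Prop) : Prop :=
  ∃ p : Fin n → EuclideanSpace ℝ (Fin d), ∀ (i j k l : Fin n) (hij : i ≠ j) (hkl : k ≠ l),
    r (pair i j hij) (pair k l hkl) → dist (p i) (p j) < dist (p k) (p l)

/-- property `(*)` of the dimension `d`: every strict total order on the pairs of a
`(d + 3)`-element index set is the distance order of some `d + 3` points of `ℝ ^ d` -/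
def Star (d : ℕ) : Prop :=
  ∀ r : Pairs (d + 3) → Pairs (d + 3) → Prop, IsStrictTotalOrder (Pairs (d + 3)) r →
    Realizable (d + 3) d r

/-- numerical key of a pair: first by smaller index, then by decreasing larger index -/
def key {n : ℕ} (e : Pairs n) : ℕ := n * (e.1.inf).val + (n - 1 - (e.1.sup).val)

theorem key_pair {n : ℕ} {i j : Fin n} (h : i < j) :
    key (pair i j h.ne) = n * i.val + (n - 1 - j.val) := by
  unfold key pair
  simp only [Sym2.inf_mk, Sym2.sup_mk]
  rw [inf_eq_left.mpr h.le, sup_eq_right.mpr h.le]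

theorem pair_comm {n : ℕ} {i j : Fin n} (h : i ≠ j) : pair i j h = pair j i h.symm :=
  Subtype.ext Sym2.eq_swap

theorem exists_pair {n : ℕ} (e : Pairs n) : ∃ (i j : Fin n) (h : i < j), e = pair i j h.ne := by
  obtain ⟨e, he⟩ := e
  induction e using Sym2.ind with
  | _ i j =>
    have hij : i ≠ j := by simpa using he
    rcases lt_or_gt_of_ne hij with h | h
    · exact ⟨i, j, h, rfl⟩
    · exact ⟨j, i, h, Subtype.ext Sym2.eq_swap⟩

theorem key_injective (n : ℕ) : Function.Injective (key : Pairs n → ℕ) := by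
  intro e f hef
  obtain ⟨i, j, hij, rfl⟩ := exists_pair e
  obtain ⟨k, l, hkl, rfl⟩ := exists_pair f
  rw [key_pair hij, key_pair hkl] at hef
  have hn : 0 < n := by have := i.isLt; omega
  have h1 : n - 1 - j.val < n := by omega
  have h2 : n - 1 - l.val < n := by omega
  have e1 : i.val = k.val := by
    have := congrArg (fun t => t / n) hef
    simpa [Nat.mul_add_div hn, Nat.div_eq_of_lt h1, Nat.div_eq_of_lt h2] using this
  have e2 : n - 1 - j.val = n - 1 - l.val := by
    rw [e1] at hef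
    omega
  have hi : i = k := Fin.ext e1
  have hj : j = l := by
    apply Fin.ext
    have := j.isLt
    have := l.isLt
    omega
  subst hi hj
  rfl

theorem key_lt {n : ℕ} {i j k l : Fin n} (hij : i < j) (hkl : k < l)
    (h : i < k ∨ (i = k ∧ l < j)) : key (pair i j hij.ne) < key (pair k l hkl.ne) := by
  rw [key_pair hij, key_pair hkl]
  have hj := j.isLt
  have hl := l.isLt
  rcases h with h | ⟨rfl, h⟩
  · have h' : i.val + 1 ≤ k.val := h
    have : n * (i.val + 1) ≤ n * k.val := Nat.mul_le_mul_left n h'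
    rw [Nat.mul_add, Nat.mul_one] at this
    omega
  · have h' : l.val < j.val := h
    omega

/-- the strict total order used for the counterexample -/
def ord (n : ℕ) (e f : Pairs n) : Prop := key e < key f

theorem ord_isStrictTotalOrder (n : ℕ) : IsStrictTotalOrder (Pairs n) (ord n) := by
  let f : RelEmbedding (ord n) ((· < ·) : ℕ → ℕ → Prop) :=
    { toFun := key
      inj' := key_injective n
      map_rel_iff' := Iff.rfl }
  exact f.isStrictTotalOrder

theorem ord_not_realizable (d : ℕ) : ¬ Realizable (d + 3) d (ord (d + 3)) := by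
  rintro ⟨p, hp⟩
  apply core p
  intro i j k l hij hkl h
  exact hp i j k l hij.ne hkl.ne (key_lt hij hkl h)

/-- No dimension `d ≥ 1` has property `(*)`. -/
theorem result : {d : ℕ | 1 ≤ d ∧ Star d} = ∅ := by
  ext d
  simp only [Set.mem_ofPred_eq, Set.mem_empty_iff_false, iff_false, not_and]
  intro _ hstar
  exact ord_not_realizable d (hstar _ (ord_isStrictTotalOrder (d + 3)))

end Pool.Agent.Results.MP_154a23_co.NoDim
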